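import Pool.Agent.H.MP_192f66_nt.A

set_option autoImplicit false
open Polynomial Pool.Agent.H.MP_192f66_nt

namespace Pool.Agent.Results.MP_192f66_nt.Lower

theorem result (p k : ℕ) [Fact p.Prime] (hk : 2 ≤ k)
    (h : p ^ k < (Nat.gcd k (p - 1)) ^ k * k.factorial * (p - 1) ∨
      (p < 2 * k ∧ 6 ≤ Nat.gcd k (p - 1)) ∨ p = k + 1) (s : ℕ)
    (hs : ∃ d0 : ℕ, ∀ d : ℕ, d0 ≤ d → ∀ f : (ZMod p)[X], f.degree = d →
      ∃ r ≤ s, ∃ g : Fin r → (ZMod p)[X],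
        (∀ i, k * (g i).natDegree < d + k) ∧ f = ∑ i, g i ^ k) : k + 1 ≤ s := by
  refine main p k (Nat.gcd k (p - 1)) (by omega) (Nat.gcd_dvd_left _ _) (Nat.gcd_dvd_right _ _)
    ?_ s hs
  rcases h with h | ⟨h1, h2⟩ | h
  · exact h
  · exact cond6 p k _ (by omega) h1 h2
  · have e1 : p - 1 = k := by omega
    rw [e1, Nat.gcd_self, h]
    exact condk k hk

end Pool.Agent.Results.MP_192f66_nt.Lower
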